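import Pool.Agent.helper22.GS.Spec

set_option autoImplicit false

namespace Pool.Agent.GS

open Module

theorem MB_list {F V : Type} [Field F] [AddCommGroup V] [Module F V]
    (B : LinearMap.BilinForm F V) (hB : Alt B) (y : Equiv.Perm V) (ν : F) (hblk : Blk B y ν)
    (L : List ((V × V) × (F × F))) :
    PL B ν L → pr B L ∈ SpG B ∧ Gen B y (2 * L.length) (pr B L) := by
  induction L with
  | nil =>
    intro _
    have h1 : pr B ([] : List ((V × V) × (F × F))) = 1 := rfl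
    rw [h1]
    exact ⟨(SpG B).one_mem, Gen.one _⟩
  | cons t L ih =>
    intro hPL
    have hPL' : PL B ν L := fun s hs => hPL s (List.mem_cons_of_mem _ hs)
    obtain ⟨h1, h2⟩ := ih hPL'
    obtain ⟨a1, a2, a3, a4, a5⟩ := hPL t List.mem_cons_self
    have hg := hblk t.1.1 t.1.2 t.2.1 t.2.2 a1 a2 a3 a4 a5
    have hmem : tv B t.1.1 t.2.1 * tv B t.1.2 t.2.2 ∈ SpG B :=
      (SpG B).mul_mem (tv_mem hB _ _) (tv_mem hB _ _)
    have e : pr B (t :: L) = tv B t.1.1 t.2.1 * tv B t.1.2 t.2.2 * pr B L := by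
      unfold pr
      rw [List.map_cons, List.prod_cons]
    rw [e]
    refine ⟨(SpG B).mul_mem hmem h1, ?_⟩
    have h3 := Gen.mul hg h2 hmem.1
    have e2 : 2 * (t :: L).length = 2 + 2 * L.length := by
      rw [List.length_cons]
      ring
    rw [e2]
    exact h3

theorem MB (hTHA : THA_stmt) (hEM : EM_stmt) (hTR : TR_stmt) : MB_stmt := by
  intro F V _ _ _ _ _ B hB y ν hν hblk r m hr hr2 hDv hm hdim
  obtain ⟨W, iW, iM, C, L, hfd, hrk, hC, hlen, hPL, hNS⟩ := hTHA r m ν hr hr2 hDv hm hν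
  haveI := hfd
  obtain ⟨ι, hinj, hι⟩ := hEM B C hB hC (by rw [hrk]; exact hdim)
  obtain ⟨hPL', hNS'⟩ := hTR B C hB hC ι hinj hι r ν L hPL hNS
  obtain ⟨h1, h2⟩ := MB_list B hB y ν hblk _ hPL'
  rw [List.length_map, hlen] at h2
  exact ⟨_, h1, h2, hNS'⟩

end Pool.Agent.GS
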